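import Pool.Agent.H69.N6E.NRT

set_option autoImplicit false

open Polynomial NumberField IsDedekindDomain Pool.Agent.H32.QC Pool.Agent.H34.N6
  Pool.Agent.H13.DEV

namespace Pool.Agent.H69.N6E

theorem pf_ALW (hNRT : T_NRT) (hHOM : T_HOM) (hBEL : T_BEL) : T_ALW := by
  intro k L _ _ _ _ _ P D e R S S' N p G Gx ε εx G' hH hGen hSS hp hx hO K _ _ _ θ hadj hθ
  have hPθ : aeval θ P ≠ 0 := by
    intro h0
    have h1 : P = minpoly k θ := minpoly.eq_of_irreducible_of_monic hH.irr h0 hH.mon
    have h2 : P ∣ G' := by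
      rw [h1]
      exact minpoly.dvd k θ hθ
    have h3 : aeval e P = 0 := by
      rw [← hGen.mp]
      exact minpoly.aeval k e
    obtain ⟨Q, hQ⟩ := h2
    apply hO.ne
    rw [hQ, map_mul, h3, zero_mul]
  refine ⟨hPθ, fun w hw => ?_⟩
  by_cases hS : bel (k := k) w ∈ S
  · obtain ⟨-, -, -, -, -, hnear⟩ := hH.loc _ hS
    obtain ⟨e1, e2⟩ := hx _ hS
    refine hnear G' hO.mon hO.deg ?_ K w rfl θ hadj hθ
    intro i
    have h := hO.close _ (hSS hS) i
    rw [e1] at h
    exact lt_of_lt_of_le h e2
  · have hS' : bel (k := k) w ∉ S' := fun h => hS (hw h)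
    cases w with
    | inr φ => exact absurd (hH.real _) hS
    | inl w =>
      have hu : Sum.inl (w.under (𝓞 k)) ∉ S := hS
      have hu' : Sum.inl (w.under (𝓞 k)) ∉ S' := hS'
      by_cases hpw : (p : 𝓞 K) ∈ w.asIdeal
      · obtain ⟨h1, h2⟩ := hp.spl K w hpw
        exact hH.spl K w θ hPθ h1 h2
      · have hpv : (p : 𝓞 k) ∉ (w.under (𝓞 k)).asIdeal := fun h =>
          hpw (((hBEL k K w).2.1 p).2 h)
        have hgood := hH.good _ hu
        obtain ⟨hint, hnear⟩ := hNRT k L K P G' e θ w hGen hH.mon hgood.intP hO.mon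
          (hO.int _ hu' hpv) hθ
        refine hH.pos K w θ hu hint hPθ fun e' he' hcl => ?_
        by_contra hns
        obtain ⟨w', g, hgc, hge, hgk, hun, hlt⟩ := hnear e' he' hcl
        have hD : g (ic w' (aeval e D)) = eval₂ (kc k w) e' D := by
          rw [g_aeval D e w w' g hgk, hge]
        have hns' : ¬ IsSquare (ic w' (aeval e D)) := by
          intro hsq
          apply hns
          rw [← hD]
          exact hsq.map g
        have hone := hO.unit w' (by rw [hun]; exact hu') (fun h => by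
          have h1 := ((hBEL k L w').2.1 p).1 h
          rw [hun] at h1
          exact hpv h1) hns'
        rw [hone] at hlt
        exact lt_irrefl _ hlt

end Pool.Agent.H69.N6E
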