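import Pool.Agent.H13.DEV.Targets
import Pool.Agent.H34.N6.LibC

set_option autoImplicit false

open Polynomial NumberField IsDedekindDomain Pool.Agent.H32.QC Pool.Agent.H34.N6
  Pool.Agent.H13.DEV

namespace Pool.Agent.H69.N6E

section

variable {F : Type} [NormedField F] [IsUltrametricDist F]

/-- an integral element has norm at most one -/
theorem norm_le_one_of_root (G : F[X]) (hm : G.Monic) (hi : ∀ i, ‖G.coeff i‖ ≤ 1) (x : F)
    (hx : eval x G = 0) : ‖x‖ ≤ 1 := by
  by_contra hlt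
  push Not at hlt
  have h1 := hm.as_sum
  have h2 : x ^ G.natDegree = -∑ i ∈ Finset.range G.natDegree, G.coeff i * x ^ i := by
    have h3 := congrArg (eval x) h1
    rw [hx, eval_add, eval_pow, eval_X, eval_finsetSum] at h3
    have h4 : ∑ i ∈ Finset.range G.natDegree, eval x (C (G.coeff i) * X ^ i) =
        ∑ i ∈ Finset.range G.natDegree, G.coeff i * x ^ i := by
      refine Finset.sum_congr rfl fun i _ => ?_
      rw [eval_mul, eval_C, eval_pow, eval_X]
    rw [h4] at h3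
    linear_combination -h3
  rcases Nat.eq_zero_or_pos G.natDegree with h0 | h0
  · rw [h0] at h2
    simp at h2
  · have h5 : ‖∑ i ∈ Finset.range G.natDegree, G.coeff i * x ^ i‖ ≤ ‖x‖ ^ (G.natDegree - 1) := by
      refine IsUltrametricDist.norm_sum_le_of_forall_le_of_nonneg (by positivity) fun i hi' => ?_
      rw [norm_mul, norm_pow]
      have h6 : i ≤ G.natDegree - 1 := by
        have := Finset.mem_range.1 hi'
        omega
      calc ‖G.coeff i‖ * ‖x‖ ^ i ≤ 1 * ‖x‖ ^ i :=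
            mul_le_mul_of_nonneg_right (hi i) (by positivity)
        _ = ‖x‖ ^ i := one_mul _
        _ ≤ ‖x‖ ^ (G.natDegree - 1) := pow_le_pow_right₀ hlt.le h6
    have h7 := congrArg norm h2
    rw [norm_neg, norm_pow] at h7
    have h8 : ‖x‖ ^ (G.natDegree - 1) < ‖x‖ ^ G.natDegree :=
      pow_lt_pow_right₀ hlt (by omega)
    linarith

theorem pow_sub_pow_le (x y : F) (hx : ‖x‖ ≤ 1) (hy : ‖y‖ ≤ 1) (i : ℕ) :
    ‖x ^ i - y ^ i‖ ≤ ‖x - y‖ := by
  induction i with
  | zero => simp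
  | succ i ih =>
    have h : x ^ (i + 1) - y ^ (i + 1) = x * (x ^ i - y ^ i) + (x - y) * y ^ i := by ring
    rw [h]
    refine (IsUltrametricDist.norm_add_le_max _ _).trans (max_le ?_ ?_)
    · rw [norm_mul]
      calc ‖x‖ * ‖x ^ i - y ^ i‖ ≤ 1 * ‖x - y‖ :=
            mul_le_mul hx ih (norm_nonneg _) zero_le_one
        _ = ‖x - y‖ := one_mul _
    · rw [norm_mul, norm_pow]
      calc ‖x - y‖ * ‖y‖ ^ i ≤ ‖x - y‖ * 1 :=
            mul_le_mul_of_nonneg_left (pow_le_one₀ (norm_nonneg _) hy) (norm_nonneg _)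
        _ = ‖x - y‖ := mul_one _

/-- integral polynomials do not increase distances on the unit ball -/
theorem eval_sub_le (G : F[X]) (hi : ∀ i, ‖G.coeff i‖ ≤ 1) (x y : F) (hx : ‖x‖ ≤ 1)
    (hy : ‖y‖ ≤ 1) : ‖eval x G - eval y G‖ ≤ ‖x - y‖ := by
  rw [eval_eq_sum_range, eval_eq_sum_range, ← Finset.sum_sub_distrib]
  refine IsUltrametricDist.norm_sum_le_of_forall_le_of_nonneg (norm_nonneg _) fun i _ => ?_
  rw [← mul_sub, norm_mul]
  calc ‖G.coeff i‖ * ‖x ^ i - y ^ i‖ ≤ 1 * ‖x - y‖ :=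
        mul_le_mul (hi i) (pow_sub_pow_le x y hx hy i) (norm_nonneg _) zero_le_one
    _ = ‖x - y‖ := one_mul _

theorem norm_le_of_close (x y : F) (hy : ‖y‖ ≤ 1) (h : ‖x - y‖ ≤ 1) : ‖x‖ ≤ 1 := by
  have : x = (x - y) + y := by ring
  rw [this]
  exact (IsUltrametricDist.norm_add_le_max _ _).trans (max_le h hy)

end

theorem eval_ic {k K : Type} [Field k] [NumberField k] [Field K] [NumberField K] [Algebra k K]
    (w : FPl K) (G : k[X]) (θ : K) : eval (ic w θ) (G.map (kc k w)) = ic w (aeval θ G) := by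
  rw [eval_map, aeval_def, hom_eval₂]

/-- the image of `aeval e G` -/
theorem g_aeval {k L K : Type} [Field k] [NumberField k] [Field L] [NumberField L]
    [Algebra k L] [Field K] [NumberField K] [Algebra k K] (G : k[X]) (e : L)
    (w : FPl K) (w' : FPl L) (g : w'.adicCompletion L →+* w.adicCompletion K)
    (hg : ∀ x : k, g (kc k w' x) = kc k w x) :
    g (ic w' (aeval e G)) = eval₂ (kc k w) (g (ic w' e)) G := by
  have h : g.comp (kc k w') = kc k w := RingHom.ext hg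
  rw [← eval_ic, eval_map, hom_eval₂, h]

theorem pf_NRT (hPLE : T_PLE) (hHOM : T_HOM) : T_NRT := by
  intro k L K _ _ _ _ _ _ _ _ P G e θ w hGen hP hPi hG hGi hθ
  have hGc : ∀ i, ‖(G.map (kc k w)).coeff i‖ ≤ 1 := fun i => poly_up hGi i
  have hroot : eval (ic w θ) (G.map (kc k w)) = 0 := by
    rw [eval_ic, hθ, map_zero]
  have h1 : ‖ic w θ‖ ≤ 1 := norm_le_one_of_root _ (hG.map _) hGc _ hroot
  refine ⟨h1, fun e' he' hclose => ?_⟩
  obtain ⟨w', g, hgc, hge, hgk, hu⟩ := hPLE k L K P e w hP hGen e' he'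
  refine ⟨w', g, hgc, hge, hgk, hu, ?_⟩
  rw [← (hHOM K L w w' g hgc (ic w' (aeval e G))).2, g_aeval G e w w' g hgk, hge, ← eval_map]
  have h2 : ‖e'‖ ≤ 1 := norm_le_of_close _ _ h1 hclose.le
  have h3 := eval_sub_le (G.map (kc k w)) hGc e' (ic w θ) h2 h1
  rw [hroot, sub_zero] at h3
  exact lt_of_le_of_lt h3 hclose

end Pool.Agent.H69.N6E
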